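import Pool.Agent.MP_fe6ac3_nt.Final

/-!
Persistence in `α` of the Adams property fails: there are parameters `φ`, `π` and `α` such that
`π` lies in the ABV-packet of `φ` and `θ_{-α}(π)` lies in the ABV-packet of `φ_α`, but
`θ_{-(α + 1)}(π)` does not lie in the ABV-packet of `φ_{α + 1}`.
-/

namespace Pool.Agent.Results.MP_fe6ac3_nt.PersistenceFails

open Adams

theorem result : ∃ φ π : Param, φ ≠ [] ∧ ∃ α : ℕ,
    InABV φ π ∧ InABV (φ.lift α) (π.lift α) ∧ ¬ InABV (φ.lift (α + 1)) (π.lift (α + 1)) :=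
  Adams.final

end Pool.Agent.Results.MP_fe6ac3_nt.PersistenceFails
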